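import Pool.Agent.LRS.Stmts

/-! Row PSI of the block LRS: polynomials in an endomorphism of the unit group. -/

set_option autoImplicit false

open Polynomial NumberField

namespace Pool.Agent.LRS.H97

open Pool.Agent.LRS

theorem unit_ne {K : Type} [Field K] (u : (𝓞 K)ˣ) (σ : K →+* ℂ) :
    ‖σ ((u : 𝓞 K) : K)‖ ≠ 0 := by
  rw [norm_ne_zero_iff]
  exact (map_ne_zero σ).2 (Units.coe_ne_zero u)

theorem lg_mul {K : Type} [Field K] (u v : (𝓞 K)ˣ) (σ : K →+* ℂ) :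
    Real.log ‖σ (((u * v : (𝓞 K)ˣ) : 𝓞 K) : K)‖ =
      Real.log ‖σ ((u : 𝓞 K) : K)‖ + Real.log ‖σ ((v : 𝓞 K) : K)‖ := by
  have e : (((u * v : (𝓞 K)ˣ) : 𝓞 K) : K) = ((u : 𝓞 K) : K) * ((v : 𝓞 K) : K) :=
    Units.coe_mul u v
  rw [e, map_mul, norm_mul, Real.log_mul (unit_ne u σ) (unit_ne v σ)]

theorem lg_zpow {K : Type} [Field K] (u : (𝓞 K)ˣ) (a : ℤ) (σ : K →+* ℂ) :
    Real.log ‖σ (((u ^ a : (𝓞 K)ˣ) : 𝓞 K) : K)‖ = (a : ℝ) * Real.log ‖σ ((u : 𝓞 K) : K)‖ := by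
  have e : (((u ^ a : (𝓞 K)ˣ) : 𝓞 K) : K) = ((u : 𝓞 K) : K) ^ a := Units.coe_zpow u a
  rw [e, map_zpow₀, norm_zpow, Real.log_zpow]

/-- **PSI** -/
theorem psi : PsiStmt := by
  intro K _ _ Φ _ P hP g
  have key : ∃ Ψ : (𝓞 K)ˣ →* (𝓞 K)ˣ,
      (∀ (u : (𝓞 K)ˣ) (σ : K →+* ℂ), Real.log ‖σ ((Ψ u : 𝓞 K) : K)‖ =
        ∑ τ : K →+* ℂ, (aeval P g σ τ : ℝ) * Real.log ‖τ ((u : 𝓞 K) : K)‖) ∧
      ∀ (u : (𝓞 K)ˣ) (m : ℕ), Φ u ^ m = 1 → Ψ u ^ m = u ^ (g.coeff 0 * (m : ℤ)) := by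
    induction g using Polynomial.induction_on with
    | C a =>
      refine ⟨zpowGroupHom a, ?_, ?_⟩
      · intro u σ
        rw [zpowGroupHom_apply, lg_zpow, aeval_C]
        rw [Finset.sum_eq_single σ]
        · rw [Matrix.algebraMap_matrix_apply, if_pos rfl]
          rfl
        · intro τ _ hτ
          rw [Matrix.algebraMap_matrix_apply, if_neg (Ne.symm hτ), Int.cast_zero, zero_mul]
        · intro h
          exact absurd (Finset.mem_univ σ) h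
      · intro u m _
        rw [zpowGroupHom_apply, coeff_C_zero, zpow_mul, zpow_natCast]
    | add p q hp hq =>
      obtain ⟨Ψ₁, h1, h2⟩ := hp
      obtain ⟨Ψ₂, h3, h4⟩ := hq
      refine ⟨Ψ₁ * Ψ₂, ?_, ?_⟩
      · intro u σ
        rw [MonoidHom.mul_apply, lg_mul, h1, h3, ← Finset.sum_add_distrib]
        refine Finset.sum_congr rfl (fun τ _ => ?_)
        rw [map_add, Matrix.add_apply, Int.cast_add, add_mul]
      · intro u m hm
        rw [MonoidHom.mul_apply, mul_pow, h2 u m hm, h4 u m hm, coeff_add, add_mul, zpow_add]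
    | monomial n a hg =>
      obtain ⟨Ψ, h1, h2⟩ := hg
      refine ⟨Ψ.comp Φ, ?_, ?_⟩
      · intro u σ
        rw [MonoidHom.comp_apply, h1]
        have e1 : aeval P (C a * X ^ (n + 1)) = aeval P (C a * X ^ n) * P := by
          rw [pow_succ, ← mul_assoc, map_mul, aeval_X]
        rw [e1]
        simp only [hP, Finset.mul_sum]
        rw [Finset.sum_comm]
        refine Finset.sum_congr rfl (fun ρ _ => ?_)
        rw [Matrix.mul_apply, Int.cast_sum, Finset.sum_mul]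
        refine Finset.sum_congr rfl (fun τ _ => ?_)
        rw [Int.cast_mul, mul_assoc]
      · intro u m hm
        rw [MonoidHom.comp_apply, ← map_pow, hm, map_one]
        have e2 : (C a * X ^ (n + 1)).coeff 0 = 0 := by
          rw [mul_coeff_zero, coeff_X_pow]
          simp
        rw [e2, zero_mul, zpow_zero]
  obtain ⟨Ψ, h1, h2⟩ := key
  exact ⟨Ψ, h1, fun u m hm h => ⟨m, hm, h2 u m h⟩⟩

end Pool.Agent.LRS.H97
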